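import Pool.Agent.W2helper31.GP.Stm3

/-!
Project GP, piece QUAD
-/

set_option autoImplicit false

namespace Pool.Agent.W2helper81.GP

open Pool.Agent.W2helper31.GP

/-- the terms -/
lemma term_nonneg {z : ℝ} (h0 : 0 ≤ z) (h1 : z ≤ 1) : 0 ≤ phi (4 * z) + 4 * phi z - 4 * phi (2 * z) := by
  unfold phi
  have e1 : Real.log ((1 + 4 * z) * (1 + z) ^ 4) = Real.log (1 + 4 * z) + 4 * Real.log (1 + z) := by
    rw [Real.log_mul (by positivity) (by positivity), Real.log_pow]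
    push_cast
    ring
  have e2 : Real.log ((1 + 2 * z) ^ 4) = 4 * Real.log (1 + 2 * z) := by
    rw [Real.log_pow]
    push_cast
    ring
  have h2 : z ^ 2 ≤ 1 := by nlinarith
  have h3 : 0 ≤ 2 + 4 * z - z ^ 2 - 4 * z ^ 3 := by
    have : z ^ 3 ≤ z := by nlinarith
    linarith
  have h4 : (1 + 4 * z) * (1 + z) ^ 4 ≤ (1 + 2 * z) ^ 4 := by
    have := mul_nonneg (sq_nonneg z) h3
    nlinarith
  have h5 := Real.log_le_log (by positivity) h4
  rw [e1, e2] at h5
  linarith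

lemma small (hS : P_SER) {x : ℝ} (h0 : 0 ≤ x) (h1 : x ≤ 1) :
    Real.Gamma (1 + 2 * x) ^ 4 ≤ Real.Gamma (1 + 4 * x) * Real.Gamma (1 + x) ^ 4 := by
  have s1 := hS 1 x one_pos h0
  have s2 := hS 1 (2 * x) one_pos (by linarith)
  have s4 := hS 1 (4 * x) one_pos (by linarith)
  rw [Real.Gamma_one, Real.log_one, sub_zero] at s1 s2 s4
  have s := (s4.add (s1.mul_left 4)).sub (s2.mul_left 4)
  have hn := s.nonneg (fun k => by
    have hk : (0 : ℝ) < 1 + k := by positivity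
    have e4 : 4 * x / (1 + k) = 4 * (x / (1 + k)) := by ring
    have e2 : 2 * x / (1 + k) = 2 * (x / (1 + k)) := by ring
    rw [e4, e2]
    refine term_nonneg (by positivity) ?_
    rw [div_le_one hk]
    have : (0 : ℝ) ≤ k := Nat.cast_nonneg k
    linarith)
  have g1 : 0 < Real.Gamma (1 + x) := Real.Gamma_pos_of_pos (by linarith)
  have g2 : 0 < Real.Gamma (1 + 2 * x) := Real.Gamma_pos_of_pos (by linarith)
  have g4 : 0 < Real.Gamma (1 + 4 * x) := Real.Gamma_pos_of_pos (by linarith)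
  rw [← Real.log_le_log_iff (by positivity) (by positivity), Real.log_pow,
    Real.log_mul (by positivity) (by positivity), Real.log_pow]
  push_cast
  linarith

lemma step {x : ℝ} (h0 : 0 ≤ x)
    (h : Real.Gamma (1 + 2 * x) ^ 4 ≤ Real.Gamma (1 + 4 * x) * Real.Gamma (1 + x) ^ 4) :
    Real.Gamma (1 + 2 * (x + 1)) ^ 4 ≤ Real.Gamma (1 + 4 * (x + 1)) * Real.Gamma (1 + (x + 1)) ^ 4 := by
  have e1 : Real.Gamma (1 + (x + 1)) = (1 + x) * Real.Gamma (1 + x) := by
    rw [← Real.Gamma_add_one (by linarith)]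
    congr 1
    ring
  have e2 : Real.Gamma (1 + 2 * (x + 1)) = (2 + 2 * x) * (1 + 2 * x) * Real.Gamma (1 + 2 * x) := by
    rw [mul_assoc, ← Real.Gamma_add_one (by linarith), show 1 + 2 * x + 1 = 2 + 2 * x by ring,
      ← Real.Gamma_add_one (by linarith)]
    congr 1
    ring
  have e4 : Real.Gamma (1 + 4 * (x + 1)) =
      (4 + 4 * x) * (3 + 4 * x) * (2 + 4 * x) * (1 + 4 * x) * Real.Gamma (1 + 4 * x) := by
    rw [mul_assoc, ← Real.Gamma_add_one (by linarith), show 1 + 4 * x + 1 = 2 + 4 * x by ring,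
      mul_assoc, ← Real.Gamma_add_one (by linarith), show 2 + 4 * x + 1 = 3 + 4 * x by ring,
      mul_assoc, ← Real.Gamma_add_one (by linarith), show 3 + 4 * x + 1 = 4 + 4 * x by ring,
      ← Real.Gamma_add_one (by linarith)]
    congr 1
    ring
  have g1 : 0 < Real.Gamma (1 + x) := Real.Gamma_pos_of_pos (by linarith)
  have g2 : 0 < Real.Gamma (1 + 2 * x) := Real.Gamma_pos_of_pos (by linarith)
  have g4 : 0 < Real.Gamma (1 + 4 * x) := Real.Gamma_pos_of_pos (by linarith)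
  rw [e1, e2, e4]
  have k1 : ((2 + 2 * x) * (1 + 2 * x)) ^ 4 ≤
      (4 + 4 * x) * (3 + 4 * x) * (2 + 4 * x) * (1 + 4 * x) * (1 + x) ^ 4 := by
    have k2 : (4 + 4 * x) * (3 + 4 * x) * (2 + 4 * x) * (1 + 4 * x) * (1 + x) ^ 4 -
        ((2 + 2 * x) * (1 + 2 * x)) ^ 4 = 8 * (1 + x) ^ 4 * (1 + 2 * x) * (8 * x ^ 2 + 7 * x + 1) := by
      ring
    have k3 : 0 ≤ 8 * (1 + x) ^ 4 * (1 + 2 * x) * (8 * x ^ 2 + 7 * x + 1) := by positivity
    linarith
  calc ((2 + 2 * x) * (1 + 2 * x) * Real.Gamma (1 + 2 * x)) ^ 4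
      = ((2 + 2 * x) * (1 + 2 * x)) ^ 4 * Real.Gamma (1 + 2 * x) ^ 4 := by ring
    _ ≤ ((4 + 4 * x) * (3 + 4 * x) * (2 + 4 * x) * (1 + 4 * x) * (1 + x) ^ 4) *
          (Real.Gamma (1 + 4 * x) * Real.Gamma (1 + x) ^ 4) :=
        mul_le_mul k1 h (by positivity) (by positivity)
    _ = _ := by ring

theorem QUAD_ok : P_QUAD := by
  intro hS nu hnu
  have key : ∀ n : ℕ, ∀ x : ℝ, 0 ≤ x → x ≤ 1 →
      Real.Gamma (1 + 2 * (x + n)) ^ 4 ≤ Real.Gamma (1 + 4 * (x + n)) * Real.Gamma (1 + (x + n)) ^ 4 := by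
    intro n
    induction n with
    | zero =>
      intro x h0 h1
      rw [Nat.cast_zero, add_zero]
      exact small hS h0 h1
    | succ n ih =>
      intro x h0 h1
      have := step (x := x + n) (by positivity) (ih x h0 h1)
      rw [Nat.cast_succ, ← add_assoc]
      exact this
  have h1 := Nat.floor_le hnu
  have h2 := Nat.lt_floor_add_one nu
  have := key ⌊nu⌋₊ (nu - ⌊nu⌋₊) (by linarith) (by linarith)
  rw [sub_add_cancel] at this
  exact this

end Pool.Agent.W2helper81.GP
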